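import Mathlib
import Pool.Agent.V11117.EnergyCert

/-!
An edge subdivision that decreases the energy although neither of the two conditions holds.
-/

namespace Pool.Agent.Results.MP_8ce0fa_co.EnergyDecrease

open Matrix Pool.Agent.V11117

/-- The real adjacency matrix of a graph is Hermitian. -/
lemma herm {V : Type} [Fintype V] [DecidableEq V] (G : SimpleGraph V)
    [DecidableRel G.Adj] : (G.adjMatrix ℝ).IsHermitian := by
  rw [Matrix.IsHermitian, Matrix.conjTranspose_eq_transpose_of_trivial]
  exact G.isSymm_adjMatrix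

/-- The energy of a finite simple graph: the sum of the absolute values of the eigenvalues
(with multiplicity) of its real adjacency matrix. -/
noncomputable def energy {V : Type} [Fintype V] [DecidableEq V] (G : SimpleGraph V)
    [DecidableRel G.Adj] : ℝ :=
  ∑ i, |(herm G).eigenvalues i|

/-- Subdividing the edge `ij`: the edge is deleted and a new vertex `none` adjacent to exactly
`i` and `j` is added. -/
def subdivide {V : Type} (G : SimpleGraph V) (i j : V) : SimpleGraph (Option V) where
  Adj
    | some a, some b => G.Adj a b ∧ ¬ (a = i ∧ b = j) ∧ ¬ (a = j ∧ b = i)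
    | some a, none => a = i ∨ a = j
    | none, some a => a = i ∨ a = j
    | none, none => False
  symm := ⟨by
    rintro (_ | a) (_ | b) h
    · exact h
    · exact h
    · exact h
    · exact ⟨h.1.symm, fun h0 => h.2.2 ⟨h0.2, h0.1⟩, fun h0 => h.2.1 ⟨h0.2, h0.1⟩⟩⟩
  loopless := ⟨by
    rintro (_ | a) h
    · exact h
    · exact h.1.ne rfl⟩

instance {V : Type} [DecidableEq V] (G : SimpleGraph V) [DecidableRel G.Adj] (i j : V) :
    DecidableRel (subdivide G i j).Adj
  | some a, some b =>
    inferInstanceAs (Decidable (G.Adj a b ∧ ¬ (a = i ∧ b = j) ∧ ¬ (a = j ∧ b = i)))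
  | some a, none => inferInstanceAs (Decidable (a = i ∨ a = j))
  | none, some a => inferInstanceAs (Decidable (a = i ∨ a = j))
  | none, none => inferInstanceAs (Decidable False)

/-- The edge `ij` is the central edge of an induced diamond: `i` and `j` have two distinct
non-adjacent common neighbours. -/
def CentralOfDiamond {V : Type} (G : SimpleGraph V) (i j : V) : Prop :=
  G.Adj i j ∧ ∃ a b, a ≠ b ∧ ¬ G.Adj a b ∧ G.Adj i a ∧ G.Adj j a ∧ G.Adj i b ∧ G.Adj j b

/-- Condition 2: `N[i] = N[j] = W`, `G[W]` is complete and every vertex of `W` other than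
`i, j` has larger degree than `i`. -/
def TwinCondition {V : Type} [Fintype V] (G : SimpleGraph V) [DecidableRel G.Adj]
    (i j : V) : Prop :=
  (∀ w, (w = i ∨ G.Adj i w) ↔ (w = j ∨ G.Adj j w)) ∧
  (∀ a b, (a = i ∨ G.Adj i a) → (b = i ∨ G.Adj i b) → a ≠ b → G.Adj a b) ∧
  (∀ w, (w = i ∨ G.Adj i w) → w ≠ i → w ≠ j → G.degree i < G.degree w)

/-- rows of the adjacency matrix, as bit masks -/
def mask : Fin 11 → ℕ := ![318, 313, 849, 1971, 1007, 1499, 1972, 1656, 1663, 1500, 1000]

/-- the graph -/
def G : SimpleGraph (Fin 11) where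
  Adj i j := (mask i).testBit j.val = true
  symm := ⟨by decide +kernel⟩
  loopless := ⟨by decide +kernel⟩

instance : DecidableRel G.Adj :=
  fun i j => inferInstanceAs (Decidable ((mask i).testBit j.val = true))

/-- integer adjacency matrix -/
def adj0 : Matrix (Fin 11) (Fin 11) ℤ := Matrix.of fun i j =>
  if G.Adj i j then 1 else 0

/-- integer adjacency matrix of the subdivision -/
def adj1 : Matrix (Option (Fin 11)) (Option (Fin 11)) ℤ := Matrix.of fun i j =>
  if (subdivide G 0 1).Adj i j then 1 else 0

def Z : Matrix (Fin 11) (Fin 11) ℤ := Matrix.of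
  ![![-39044, 52937, 26929, 21167, 34367, 21167, -12840, -26040, 34367, -12840, -26040],
    ![52937, -38921, -11205, 38102, 22973, 38102, -26040, -10911, 22973, -26040, -10911],
    ![26929, -11205, -4660, -28263, 38200, -28263, 40129, -26334, 38200, 40129, -26334],
    ![21167, 38102, -28263, -2227, 16743, -2227, -51656, 29354, 16743, 48324, 29354],
    ![34367, 22973, 38200, 16743, -14429, 16743, 20576, 51748, -14429, 20576, -48232],
    ![21167, 38102, -28263, -2227, 16743, -2227, 48324, 29354, 16743, -51656, 29354],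
    ![-12840, -26040, 40129, -51656, 20576, 48324, 1313, 29060, 20576, 1313, 29060],
    ![-26040, -10911, -26334, 29354, 51748, 29354, 29060, 6666, -48232, 29060, 6666],
    ![34367, 22973, 38200, 16743, -14429, 16743, 20576, -48232, -14429, 20576, 51748],
    ![-12840, -26040, 40129, 48324, 20576, -51656, 1313, 29060, 20576, 1313, 29060],
    ![-26040, -10911, -26334, 29354, -48232, 29354, 29060, 6666, 51748, 29060, 6666]]

def B11 : Fin 11 → Fin 3 → ℤ :=
  ![![5008, 12866, -12060],
    ![-5973, 11161, -12060],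
    ![15129, 12020, 0],
    ![-7373, 17975, -3015],
    ![3609, 19679, -3015],
    ![-7373, 17975, -3015],
    ![4309, 16273, 9045],
    ![-6673, 14568, 9045],
    ![3609, 19679, -3015],
    ![4309, 16273, 9045],
    ![-6673, 14568, 9045]]

def C11 : Fin 11 → Fin 5 → ℤ :=
  ![![17976, 0, 0, 0, -3596],
    ![15880, 0, 0, 0, 7317],
    ![-5744, 0, 0, 0, 18449],
    ![-8835, -14191, 6874, -7166, 2914],
    ![-6739, 3728, 8434, 14662, -7999],
    ![-8835, 13293, 1414, -11014, 2914],
    ![5619, -14191, 6874, -7166, -5797],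
    ![3522, -2830, -16722, 3518, 5116],
    ![-6739, -2830, -16722, 3518, -7999],
    ![5619, 13293, 1414, -11014, -5797],
    ![3522, 3728, 8434, 14662, 5116]]

def B : Matrix (Option (Fin 11)) (Fin 3) ℤ := Matrix.of fun o => match o with
  | none => ![-700, 3407, -12060]
  | some k => B11 k

def C : Matrix (Option (Fin 11)) (Fin 5) ℤ := Matrix.of fun o => match o with
  | none => ![-12357, 0, 0, 0, -2202]
  | some k => C11 k

lemma Z_symm : ∀ i j, Z i j = Z j i := by decide +kernel

lemma Z_row : ∀ i, ∑ j, |∑ k, Z i k * Z k j| ≤ (100000 : ℤ) ^ 2 := by decide +kernel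

lemma low_val : ∑ i, ∑ j, Z i j * adj0 j i = 2088282 := by decide +kernel

lemma up_val : (∑ i, ∑ p, B i p ^ 2) + (∑ i, ∑ q, C i q ^ 2) +
    ∑ i, ∑ j, |(20000 : ℤ) ^ 2 * adj1 i j - (∑ p, B i p * B j p) + ∑ q, C i q * C j q| =
      8345601370 := by decide +kernel

lemma adj0_eq (i j : Fin 11) : G.adjMatrix ℝ i j = (adj0 i j : ℝ) := by
  rw [SimpleGraph.adjMatrix_apply, adj0, Matrix.of_apply]
  push_cast
  rfl

lemma adj1_eq (i j : Option (Fin 11)) :
    (subdivide G 0 1).adjMatrix ℝ i j = (adj1 i j : ℝ) := by
  rw [SimpleGraph.adjMatrix_apply, adj1, Matrix.of_apply]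
  push_cast
  rfl

lemma energy_lt : energy (subdivide G 0 1) < energy G := by
  have h1 := EnergyCert.lower (herm G) adj0 Z 100000 (by norm_num) adj0_eq Z_symm Z_row
  have h2 := EnergyCert.upper (herm (subdivide G 0 1)) adj1 B C 20000 (by norm_num) adj1_eq
  rw [low_val] at h1
  rw [up_val] at h2
  calc energy (subdivide G 0 1) ≤ _ := h2
    _ < (((2088282 : ℤ) : ℝ) / ((100000 : ℤ) : ℝ)) := by
      push_cast
      norm_num
    _ ≤ energy G := h1

lemma connected : G.Connected := by
  have h : ∀ v, v = 4 ∨ G.Adj 4 v ∨ ∃ w, G.Adj 4 w ∧ G.Adj w v := by decide +kernel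
  have h0 : ∀ v, G.Reachable 4 v := by
    intro v
    rcases h v with rfl | h1 | ⟨w, h1, h2⟩
    · exact SimpleGraph.Reachable.refl _
    · exact h1.reachable
    · exact h1.reachable.trans h2.reachable
  haveI : Nonempty (Fin 11) := ⟨0⟩
  exact SimpleGraph.Connected.mk fun u v => (h0 u).symm.trans (h0 v)

/-- There is a connected graph on 11 vertices with an edge `ij` whose subdivision decreases the
energy, although `ij` is not the central edge of an induced diamond and Condition 2 fails. -/
theorem result : ∃ (G : SimpleGraph (Fin 11)) (_ : DecidableRel G.Adj), G.Connected ∧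
    ∃ i j : Fin 11, G.Adj i j ∧ energy (subdivide G i j) < energy G ∧
      ¬ CentralOfDiamond G i j ∧ ¬ TwinCondition G i j := by
  refine ⟨G, inferInstance, connected, 0, 1, by decide +kernel, energy_lt, ?_, ?_⟩
  · rintro ⟨-, h⟩
    revert h
    decide +kernel
  · rintro ⟨h, -, -⟩
    have := (h 2).1 (Or.inr (by decide +kernel))
    revert this
    decide +kernel

end Pool.Agent.Results.MP_8ce0fa_co.EnergyDecrease
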